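import Pool.Agent.W682.TW.Stm

/-!
Project TW (helper682): smoothness and axis convexity of `g1` on the slab.
-/

set_option autoImplicit false

open scoped BigOperators

namespace Pool.Agent.W63.TW.G1

open Pool.Agent.W682.TW

/-! ### algebra of the coordinate functions -/

theorem sum_single {n : ℕ} (c : Fin n → ℝ) (j : Fin n) :
    ∑ i : Fin n, c i * (Pi.single j (1 : ℝ) : Fin n → ℝ) i = c j := by
  simp [Pi.single_apply]

theorem sq_add {n : ℕ} (a : Fin n → ℝ) (τ : ℝ) (i : Fin n) :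
    Pool.Agent.W682.TW.sq (a + τ • (Pi.single i (1 : ℝ) : Fin n → ℝ)) = Pool.Agent.W682.TW.sq a + 2 * τ * a i + τ ^ 2 := by
  unfold Pool.Agent.W682.TW.sq
  have h1 : ∀ k : Fin n, (a + τ • (Pi.single i (1 : ℝ) : Fin n → ℝ)) k ^ 2 =
      a k ^ 2 + (2 * τ * a k + τ ^ 2) * (Pi.single i (1 : ℝ) : Fin n → ℝ) k := by
    intro k
    simp only [Pi.add_apply, Pi.smul_apply, smul_eq_mul]
    by_cases hk : k = i
    · subst hk
      rw [Pi.single_eq_same]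
      ring
    · rw [Pi.single_eq_of_ne hk]
      ring
  rw [Finset.sum_congr rfl (fun k _ => h1 k), Finset.sum_add_distrib,
    sum_single (fun k => 2 * τ * a k + τ ^ 2) i]
  ring

theorem pf_eq (n : ℕ) (σ : ℕ → ℝ) (a b : Fin n → ℝ) :
    pf n σ a b = ∑ i : Fin n, Yf n σ b i * a i := by
  unfold pf Yf
  refine Finset.sum_congr rfl (fun i _ => ?_)
  rw [Finset.sum_mul]
  refine Finset.sum_congr rfl (fun j _ => ?_)
  ring

theorem pf_add_left (n : ℕ) (σ : ℕ → ℝ) (a b : Fin n → ℝ) (τ : ℝ) (i : Fin n) :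
    pf n σ (a + τ • (Pi.single i (1 : ℝ) : Fin n → ℝ)) b = pf n σ a b + τ * Yf n σ b i := by
  rw [pf_eq, pf_eq]
  have h1 : ∀ k : Fin n, Yf n σ b k * (a + τ • (Pi.single i (1 : ℝ) : Fin n → ℝ)) k =
      Yf n σ b k * a k + (τ * Yf n σ b k) * (Pi.single i (1 : ℝ) : Fin n → ℝ) k := by
    intro k
    simp only [Pi.add_apply, Pi.smul_apply, smul_eq_mul]
    ring
  rw [Finset.sum_congr rfl (fun k _ => h1 k), Finset.sum_add_distrib,
    sum_single (fun k => τ * Yf n σ b k) i]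

theorem Yf_add (n : ℕ) (σ : ℕ → ℝ) (b : Fin n → ℝ) (τ : ℝ) (j i : Fin n) :
    Yf n σ (b + τ • (Pi.single j (1 : ℝ) : Fin n → ℝ)) i =
      Yf n σ b i + τ * σ (i.val + j.val) := by
  unfold Yf
  have h1 : ∀ k : Fin n, σ (i.val + k.val) * (b + τ • (Pi.single j (1 : ℝ) : Fin n → ℝ)) k =
      σ (i.val + k.val) * b k +
        (τ * σ (i.val + k.val)) * (Pi.single j (1 : ℝ) : Fin n → ℝ) k := by
    intro k
    simp only [Pi.add_apply, Pi.smul_apply, smul_eq_mul]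
    ring
  rw [Finset.sum_congr rfl (fun k _ => h1 k), Finset.sum_add_distrib,
    sum_single (fun k => τ * σ (i.val + k.val)) j]

theorem pf_add_right (n : ℕ) (σ : ℕ → ℝ) (a b : Fin n → ℝ) (τ : ℝ) (j : Fin n) :
    pf n σ a (b + τ • (Pi.single j (1 : ℝ) : Fin n → ℝ)) =
      pf n σ a b + τ * ∑ i : Fin n, σ (i.val + j.val) * a i := by
  rw [pf_eq, pf_eq, Finset.mul_sum, ← Finset.sum_add_distrib]
  refine Finset.sum_congr rfl (fun i _ => ?_)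
  rw [Yf_add]
  ring

theorem sq_nn {n : ℕ} (a : Fin n → ℝ) : 0 ≤ Pool.Agent.W682.TW.sq a := Finset.sum_nonneg (fun i _ => sq_nonneg _)

theorem le_sq {n : ℕ} (a : Fin n → ℝ) (i : Fin n) : a i ^ 2 ≤ Pool.Agent.W682.TW.sq a :=
  Finset.single_le_sum (f := fun k => a k ^ 2) (fun k _ => sq_nonneg _) (Finset.mem_univ i)

/-! ### psi -/

theorem sum4_nn (n : ℕ) (σ : ℕ → ℝ) (b : Fin n → ℝ) : 0 ≤ ∑ i : Fin n, Yf n σ b i ^ 4 :=
  Finset.sum_nonneg (fun i _ => by positivity)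

theorem psi_nn (n : ℕ) (σ : ℕ → ℝ) (b : Fin n → ℝ) : 0 ≤ psi n σ b := by
  unfold psi
  have h1 : (1 : ℝ) ≤ Real.sqrt (∑ i : Fin n, Yf n σ b i ^ 4 + 1) := by
    rw [Real.le_sqrt' one_pos]
    linarith [sum4_nn n σ b]
  linarith

theorem psi_ge (n : ℕ) (σ : ℕ → ℝ) (b : Fin n → ℝ) (i : Fin n) :
    (Yf n σ b i ^ 2 - 1) / 20 ≤ psi n σ b := by
  unfold psi
  have h0 : Yf n σ b i ^ 4 ≤ ∑ i : Fin n, Yf n σ b i ^ 4 :=
    Finset.single_le_sum (f := fun k => Yf n σ b k ^ 4) (fun k _ => by positivity)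
      (Finset.mem_univ i)
  have h1 : Yf n σ b i ^ 2 ≤ Real.sqrt (∑ i : Fin n, Yf n σ b i ^ 4 + 1) := by
    apply Real.le_sqrt_of_sq_le
    nlinarith [h0]
  linarith

/-! ### second derivatives at `0` -/

theorem hasDeriv_poly (A0 A1 A2 A3 A4 τ : ℝ) :
    HasDerivAt (fun τ : ℝ => A0 + A1 * τ + A2 * τ ^ 2 + A3 * τ ^ 3 + A4 * τ ^ 4)
      (A1 + 2 * A2 * τ + 3 * A3 * τ ^ 2 + 4 * A4 * τ ^ 3) τ := by
  have h := ((((hasDerivAt_const τ A0).add ((hasDerivAt_id τ).const_mul A1)).add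
    ((hasDerivAt_pow 2 τ).const_mul A2)).add ((hasDerivAt_pow 3 τ).const_mul A3)).add
    ((hasDerivAt_pow 4 τ).const_mul A4)
  refine HasDerivAt.congr_deriv h ?_
  push_cast
  ring

theorem dd_poly (A0 A1 A2 A3 A4 : ℝ) :
    deriv (deriv (fun τ : ℝ => A0 + A1 * τ + A2 * τ ^ 2 + A3 * τ ^ 3 + A4 * τ ^ 4)) 0 =
      2 * A2 := by
  have h1 : deriv (fun τ : ℝ => A0 + A1 * τ + A2 * τ ^ 2 + A3 * τ ^ 3 + A4 * τ ^ 4) =
      fun τ => A1 + (2 * A2) * τ + (3 * A3) * τ ^ 2 + (4 * A4) * τ ^ 3 + 0 * τ ^ 4 := by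
    funext τ
    rw [(hasDeriv_poly A0 A1 A2 A3 A4 τ).deriv]
    ring
  rw [h1, (hasDeriv_poly A1 (2 * A2) (3 * A3) (4 * A4) 0 0).deriv]
  ring

theorem dd_sqrt (B0 B1 B2 c T0 T1 T2 T3 T4 : ℝ)
    (hT : ∀ τ : ℝ, 0 < T0 + T1 * τ + T2 * τ ^ 2 + T3 * τ ^ 3 + T4 * τ ^ 4) :
    deriv (deriv (fun τ : ℝ => (B0 + B1 * τ + B2 * τ ^ 2) +
      c * Real.sqrt (T0 + T1 * τ + T2 * τ ^ 2 + T3 * τ ^ 3 + T4 * τ ^ 4))) 0 =
      2 * B2 + c * (T2 / Real.sqrt T0 - T1 ^ 2 / (4 * Real.sqrt T0 ^ 3)) := by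
  have h1 : ∀ τ : ℝ, HasDerivAt (fun τ : ℝ => (B0 + B1 * τ + B2 * τ ^ 2) +
      c * Real.sqrt (T0 + T1 * τ + T2 * τ ^ 2 + T3 * τ ^ 3 + T4 * τ ^ 4))
      ((B1 + 2 * B2 * τ) + c * ((T1 + 2 * T2 * τ + 3 * T3 * τ ^ 2 + 4 * T4 * τ ^ 3) /
        (2 * Real.sqrt (T0 + T1 * τ + T2 * τ ^ 2 + T3 * τ ^ 3 + T4 * τ ^ 4)))) τ := by
    intro τ
    have h2 := (hasDeriv_poly T0 T1 T2 T3 T4 τ).sqrt (hT τ).ne'
    have h3 : HasDerivAt (fun τ : ℝ => B0 + B1 * τ + B2 * τ ^ 2) (B1 + 2 * B2 * τ) τ := by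
      have h := ((hasDerivAt_const τ B0).add ((hasDerivAt_id τ).const_mul B1)).add
        ((hasDerivAt_pow 2 τ).const_mul B2)
      refine HasDerivAt.congr_deriv h ?_
      push_cast
      ring
    exact h3.add (h2.const_mul c)
  have h1' : deriv (fun τ : ℝ => (B0 + B1 * τ + B2 * τ ^ 2) +
      c * Real.sqrt (T0 + T1 * τ + T2 * τ ^ 2 + T3 * τ ^ 3 + T4 * τ ^ 4)) =
      fun τ => (B1 + 2 * B2 * τ) + c * ((T1 + 2 * T2 * τ + 3 * T3 * τ ^ 2 + 4 * T4 * τ ^ 3) /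
        (2 * Real.sqrt (T0 + T1 * τ + T2 * τ ^ 2 + T3 * τ ^ 3 + T4 * τ ^ 4))) := by
    funext τ
    exact (h1 τ).deriv
  rw [h1']
  have hT0 : 0 < T0 := by simpa using hT 0
  have hu : 0 < Real.sqrt T0 := Real.sqrt_pos.2 hT0
  have e0 : T0 + T1 * 0 + T2 * 0 ^ 2 + T3 * 0 ^ 3 + T4 * 0 ^ 4 = T0 := by ring
  have h4 : HasDerivAt (fun τ : ℝ => B1 + 2 * B2 * τ) (2 * B2) 0 := by
    have h := (hasDerivAt_const (0 : ℝ) B1).add ((hasDerivAt_id (0 : ℝ)).const_mul (2 * B2))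
    refine HasDerivAt.congr_deriv h ?_
    ring
  have h5 : HasDerivAt (fun τ : ℝ => T1 + 2 * T2 * τ + 3 * T3 * τ ^ 2 + 4 * T4 * τ ^ 3)
      (2 * T2) 0 := by
    have h := hasDeriv_poly T1 (2 * T2) (3 * T3) (4 * T4) 0 0
    have e : (fun τ : ℝ => T1 + 2 * T2 * τ + 3 * T3 * τ ^ 2 + 4 * T4 * τ ^ 3) =
        fun τ : ℝ => T1 + 2 * T2 * τ + 3 * T3 * τ ^ 2 + 4 * T4 * τ ^ 3 + 0 * τ ^ 4 := by
      funext τ; ring
    rw [e]
    refine HasDerivAt.congr_deriv h ?_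
    ring
  have h6 : HasDerivAt (fun τ : ℝ => 2 * Real.sqrt (T0 + T1 * τ + T2 * τ ^ 2 + T3 * τ ^ 3 +
      T4 * τ ^ 4)) (T1 / Real.sqrt T0) 0 := by
    have h := ((hasDeriv_poly T0 T1 T2 T3 T4 0).sqrt (hT 0).ne').const_mul 2
    refine HasDerivAt.congr_deriv h ?_
    rw [e0]
    field_simp
    ring
  have h7 := h5.div h6 (by rw [e0]; positivity)
  have h8 := h4.add (h7.const_mul c)
  have h9 := h8.deriv
  refine Eq.trans h9 ?_
  rw [e0]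
  have e1 : T1 + 2 * T2 * 0 + 3 * T3 * 0 ^ 2 + 4 * T4 * 0 ^ 3 = T1 := by ring
  rw [e1]
  congr 2
  field_simp
  ring

/-! ### smoothness -/

theorem smooth (n : ℕ) (σ : ℕ → ℝ) (ε : ℝ) : ContDiff ℝ 2 (g1 n σ ε) := by
  have ha : ∀ i : Fin n, ContDiff ℝ 2 (fun x : St n => x.2.1 i) := fun i => by fun_prop
  have hb : ∀ i : Fin n, ContDiff ℝ 2 (fun x : St n => x.2.2 i) := fun i => by fun_prop
  have hθ : ContDiff ℝ 2 (fun x : St n => x.1) := contDiff_fst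
  have hsa : ContDiff ℝ 2 (fun x : St n => Pool.Agent.W682.TW.sq x.2.1) := by
    unfold Pool.Agent.W682.TW.sq
    exact ContDiff.sum (fun i _ => (ha i).pow 2)
  have hsb : ContDiff ℝ 2 (fun x : St n => Pool.Agent.W682.TW.sq x.2.2) := by
    unfold Pool.Agent.W682.TW.sq
    exact ContDiff.sum (fun i _ => (hb i).pow 2)
  have hpf : ContDiff ℝ 2 (fun x : St n => pf n σ x.2.1 x.2.2) := by
    unfold pf
    exact ContDiff.sum (fun i _ => ContDiff.sum (fun j _ =>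
      (contDiff_const.mul (ha i)).mul (hb j)))
  have hpsi : ContDiff ℝ 2 (fun x : St n => psi n σ x.2.2) := by
    unfold psi
    have h1 : ContDiff ℝ 2 (fun x : St n => ∑ i : Fin n, Yf n σ x.2.2 i ^ 4 + 1) := by
      unfold Yf
      exact (ContDiff.sum (fun i _ => (ContDiff.sum (fun j _ =>
        contDiff_const.mul (hb j))).pow 4)).add contDiff_const
    exact ((h1.sqrt (fun x => by linarith [sum4_nn n σ x.2.2])).sub contDiff_const).div_const 20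
  unfold g1
  exact (((((hθ.mul hpf).add (contDiff_const.mul hsa)).add (contDiff_const.mul hsb)).sub
    ((hθ.sub (hθ.pow 2)).mul (hpsi.add (hsa.div_const 12)))).sub
    (contDiff_const.mul ((contDiff_const.add hθ).sub (hθ.pow 2)))).sub
    ((hsa.pow 2).div_const 144)

/-! ### the three kinds of axes -/

theorem case_z (n : ℕ) (σ : ℕ → ℝ) (ε θ : ℝ) (a b : Fin n → ℝ) (z : Unit ⊕ Fin (2 * n)) :
    2 * ε ≤ deriv (deriv (fun τ : ℝ => g1 n σ ε ((θ, a, b) + τ • ax n (.inl z)))) 0 := by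
  have e : (fun τ : ℝ => g1 n σ ε ((θ, a, b) + τ • ax n (.inl z))) = fun τ : ℝ =>
      g1 n σ ε (θ, a, b) + (pf n σ a b - (1 - 2 * θ) * (psi n σ b +
        Pool.Agent.W682.TW.sq a / 12 + ε)) * τ +
        (psi n σ b + Pool.Agent.W682.TW.sq a / 12 + ε) * τ ^ 2 + 0 * τ ^ 3 + 0 * τ ^ 4 := by
    funext τ
    have h1 : ((θ, a, b) : St n) + τ • ax n (.inl z) = (θ + τ, a, b) := by
      simp [ax]
    rw [h1]
    unfold g1
    simp only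
    ring
  rw [e, dd_poly]
  have h1 := psi_nn n σ b
  have h2 := sq_nn a
  linarith

theorem case_a (n : ℕ) (σ : ℕ → ℝ) (ε θ : ℝ) (a b : Fin n → ℝ) (i : Fin n)
    (hc : (1 - 2 * θ) ^ 2 ≤ 2) :
    2 * ε ≤ deriv (deriv (fun τ : ℝ => g1 n σ ε ((θ, a, b) + τ • ax n (.inr (.inl i))))) 0 := by
  set P := pf n σ a b with hP
  set Y := Yf n σ b i with hY
  set S := Pool.Agent.W682.TW.sq a with hS
  set B := Pool.Agent.W682.TW.sq b with hB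
  set p := psi n σ b with hp
  have e : (fun τ : ℝ => g1 n σ ε ((θ, a, b) + τ • ax n (.inr (.inl i)))) = fun τ : ℝ =>
      (θ * P + 6 * S + 11 / 2 * B - (θ - θ ^ 2) * (p + S / 12) - ε * (1 + θ - θ ^ 2)
        - S ^ 2 / 144) +
      (P + θ * Y + 12 * a i - (1 - 2 * θ) * (p + S / 12) - (θ - θ ^ 2) * a i / 6
        - ε * (1 - 2 * θ) - 4 * a i * S / 144) * τ +
      (Y + 6 + (p + S / 12) - (1 - 2 * θ) * a i / 6 - (θ - θ ^ 2) / 12 + ε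
        - (4 * a i ^ 2 + 2 * S) / 144) * τ ^ 2 +
      (-(1 - 2 * θ) / 12 + a i / 6 - 4 * a i / 144) * τ ^ 3 + (1 / 12 - 1 / 144) * τ ^ 4 := by
    funext τ
    have h1 : ((θ, a, b) : St n) + τ • ax n (.inr (.inl i)) =
        (θ + τ, a + τ • (Pi.single i (1 : ℝ) : Fin n → ℝ), b) := by
      simp [ax]
    rw [h1]
    unfold g1
    simp only
    rw [pf_add_left, sq_add]
    rw [← hP, ← hY, ← hS, ← hB, ← hp]
    ring
  rw [e, dd_poly]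
  have h1 := psi_ge n σ b i
  have h2 := le_sq a i
  rw [← hY, ← hp] at h1
  rw [← hS] at h2
  have h3 : θ - θ ^ 2 ≤ 1 / 4 := by nlinarith [sq_nonneg (θ - 1 / 2)]
  nlinarith [sq_nonneg (Y + 10), sq_nonneg (a i - 2 * (1 - 2 * θ))]

theorem T_poly {n : ℕ} (Y s : Fin n → ℝ) (τ : ℝ) :
    ∑ i : Fin n, (Y i + τ * s i) ^ 4 + 1 = (∑ i : Fin n, Y i ^ 4 + 1) +
      (4 * ∑ i : Fin n, Y i ^ 2 * (Y i * s i)) * τ + (6 * ∑ i : Fin n, (Y i * s i) ^ 2) * τ ^ 2 +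
      (4 * ∑ i : Fin n, Y i * s i ^ 3) * τ ^ 3 + (∑ i : Fin n, s i ^ 4) * τ ^ 4 := by
  have h : ∀ i : Fin n, (Y i + τ * s i) ^ 4 = Y i ^ 4 + 4 * (Y i ^ 2 * (Y i * s i)) * τ +
      6 * (Y i * s i) ^ 2 * τ ^ 2 + 4 * (Y i * s i ^ 3) * τ ^ 3 + s i ^ 4 * τ ^ 4 := by
    intro i
    ring
  rw [Finset.sum_congr rfl (fun i _ => h i)]
  simp only [Finset.sum_add_distrib, ← Finset.sum_mul, ← Finset.mul_sum]
  ring

theorem W_bounds {n : ℕ} (hN : (n : ℝ) = 16384) (Y s : Fin n → ℝ)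
    (hs : ∀ i, s i ^ 2 = 1) (u : ℝ) (hu : 0 < u) (hu2 : u ^ 2 = ∑ i : Fin n, Y i ^ 4 + 1) :
    0 ≤ (6 * ∑ i : Fin n, (Y i * s i) ^ 2) / u -
      (4 * ∑ i : Fin n, Y i ^ 2 * (Y i * s i)) ^ 2 / (4 * u ^ 3) ∧
    (6 * ∑ i : Fin n, (Y i * s i) ^ 2) / u -
      (4 * ∑ i : Fin n, Y i ^ 2 * (Y i * s i)) ^ 2 / (4 * u ^ 3) ≤ 768 := by
  set V : ℝ := ∑ i : Fin n, (Y i * s i) ^ 2 with hV
  set R : ℝ := ∑ i : Fin n, Y i ^ 2 * (Y i * s i) with hR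
  have hV0 : 0 ≤ V := Finset.sum_nonneg (fun i _ => sq_nonneg _)
  have h4 : ∑ i : Fin n, (Y i ^ 2) ^ 2 = u ^ 2 - 1 := by
    rw [hu2]
    have : ∀ i : Fin n, (Y i ^ 2) ^ 2 = Y i ^ 4 := fun i => by ring
    rw [Finset.sum_congr rfl (fun i _ => this i)]
    ring
  have hCS : R ^ 2 ≤ (∑ i : Fin n, (Y i ^ 2) ^ 2) * V :=
    Finset.sum_mul_sq_le_sq_mul_sq Finset.univ (fun i => Y i ^ 2) (fun i => Y i * s i)
  rw [h4] at hCS
  have hRV : R ^ 2 ≤ u ^ 2 * V := by nlinarith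
  have hVe : V = ∑ i : Fin n, Y i ^ 2 := by
    rw [hV]
    refine Finset.sum_congr rfl (fun i _ => ?_)
    rw [mul_pow, hs i, mul_one]
  have hCS2 : V ^ 2 ≤ (n : ℝ) * (u ^ 2 - 1) := by
    have h := sq_sum_le_card_mul_sum_sq (s := (Finset.univ : Finset (Fin n)))
      (f := fun i => Y i ^ 2)
    rw [Finset.card_univ, Fintype.card_fin] at h
    rw [hVe, ← h4]
    exact h
  have hVu : V ≤ 128 * u := by
    rw [hN] at hCS2
    have h1 : V ^ 2 ≤ (128 * u) ^ 2 := by nlinarith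
    exact le_of_sq_le_sq h1 (by positivity)
  have e1 : (4 * R) ^ 2 / (4 * u ^ 3) = 4 * R ^ 2 / u ^ 3 := by
    field_simp
  have e2 : (6 * V) / u - 4 * R ^ 2 / u ^ 3 = (6 * V * u ^ 2 - 4 * R ^ 2) / u ^ 3 := by
    field_simp
  rw [e1]
  constructor
  · rw [e2]
    apply div_nonneg _ (by positivity)
    nlinarith
  · have h1 : 0 ≤ 4 * R ^ 2 / u ^ 3 := by positivity
    have h2 : (6 * V) / u ≤ 768 := by
      rw [div_le_iff₀ hu]
      linarith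
    linarith

theorem case_b (n : ℕ) (σ : ℕ → ℝ) (ε θ : ℝ) (a b : Fin n → ℝ) (j : Fin n)
    (hN : (n : ℝ) = 16384) (hσ : Sgn σ) (hε : ε ≤ 1 / 2) :
    2 * ε ≤ deriv (deriv (fun τ : ℝ => g1 n σ ε ((θ, a, b) + τ • ax n (.inr (.inr j))))) 0 := by
  set P := pf n σ a b with hP
  set S := Pool.Agent.W682.TW.sq a with hS
  set B := Pool.Agent.W682.TW.sq b with hB
  set Z := ∑ i : Fin n, σ (i.val + j.val) * a i with hZ
  set Y : Fin n → ℝ := fun i => Yf n σ b i with hY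
  set s : Fin n → ℝ := fun i => σ (i.val + j.val) with hs
  have hs2 : ∀ i, s i ^ 2 = 1 := by
    intro i
    rcases hσ (i.val + j.val) with h | h
    · simp only [hs, h]; norm_num
    · simp only [hs, h]; norm_num
  have e : (fun τ : ℝ => g1 n σ ε ((θ, a, b) + τ • ax n (.inr (.inr j)))) = fun τ : ℝ =>
      ((θ * P + 6 * S + 11 / 2 * B + (θ - θ ^ 2) / 20 - (θ - θ ^ 2) * S / 12
        - ε * (1 + θ - θ ^ 2) - S ^ 2 / 144) + (θ * Z + 11 * b j) * τ + 11 / 2 * τ ^ 2) +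
      (-(θ - θ ^ 2) / 20) * Real.sqrt ((∑ i : Fin n, Y i ^ 4 + 1) +
      (4 * ∑ i : Fin n, Y i ^ 2 * (Y i * s i)) * τ + (6 * ∑ i : Fin n, (Y i * s i) ^ 2) * τ ^ 2 +
      (4 * ∑ i : Fin n, Y i * s i ^ 3) * τ ^ 3 + (∑ i : Fin n, s i ^ 4) * τ ^ 4) := by
    funext τ
    have h1 : ((θ, a, b) : St n) + τ • ax n (.inr (.inr j)) =
        (θ, a, b + τ • (Pi.single j (1 : ℝ) : Fin n → ℝ)) := by
      simp [ax]
    rw [h1, ← T_poly Y s τ]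
    have h2 : ∑ i : Fin n, Yf n σ (b + τ • (Pi.single j (1 : ℝ) : Fin n → ℝ)) i ^ 4 =
        ∑ i : Fin n, (Y i + τ * s i) ^ 4 :=
      Finset.sum_congr rfl (fun i _ => by rw [Yf_add])
    unfold g1
    simp only
    unfold psi
    rw [pf_add_right, sq_add, h2, ← hP, ← hS, ← hB, ← hZ]
    ring
  have hT : ∀ τ : ℝ, 0 < (∑ i : Fin n, Y i ^ 4 + 1) +
      (4 * ∑ i : Fin n, Y i ^ 2 * (Y i * s i)) * τ + (6 * ∑ i : Fin n, (Y i * s i) ^ 2) * τ ^ 2 +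
      (4 * ∑ i : Fin n, Y i * s i ^ 3) * τ ^ 3 + (∑ i : Fin n, s i ^ 4) * τ ^ 4 := by
    intro τ
    rw [← T_poly Y s τ]
    have h : 0 ≤ ∑ i : Fin n, (Y i + τ * s i) ^ 4 :=
      Finset.sum_nonneg (fun i _ => by positivity)
    linarith
  rw [e, dd_sqrt _ _ _ _ _ _ _ _ _ hT]
  have hpos : 0 < ∑ i : Fin n, Y i ^ 4 + 1 := by
    have h : 0 ≤ ∑ i : Fin n, Y i ^ 4 := Finset.sum_nonneg (fun i _ => by positivity)
    linarith
  obtain ⟨hW0, hW1⟩ := W_bounds hN Y s hs2 (Real.sqrt (∑ i : Fin n, Y i ^ 4 + 1))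
    (Real.sqrt_pos.2 hpos) (Real.sq_sqrt hpos.le)
  set W : ℝ := (6 * ∑ i : Fin n, (Y i * s i) ^ 2) / Real.sqrt (∑ i : Fin n, Y i ^ 4 + 1) -
      (4 * ∑ i : Fin n, Y i ^ 2 * (Y i * s i)) ^ 2 /
        (4 * Real.sqrt (∑ i : Fin n, Y i ^ 4 + 1) ^ 3) with hW
  have h3 : θ - θ ^ 2 ≤ 1 / 4 := by nlinarith [sq_nonneg (θ - 1 / 2)]
  nlinarith [mul_le_mul_of_nonneg_right h3 hW0]

theorem main : S_G1 := by
  intro n σ ε hn hσ hε hε2
  have hN : (n : ℝ) = 16384 := by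
    rw [hn]
    norm_num
  clear hn
  refine ⟨smooth n σ ε, ?_⟩
  rintro ⟨θ, a, b⟩ hx1 hx2 ι
  simp only at hx1 hx2
  have hs : 1 / (n : ℝ) ^ 2 ≤ 1 / 100 := by
    rw [hN]
    norm_num
  have hc : (1 - 2 * θ) ^ 2 ≤ 2 := by nlinarith
  rcases ι with z | (i | j)
  · exact case_z n σ ε θ a b z
  · exact case_a n σ ε θ a b i hc
  · exact case_b n σ ε θ a b j hN hσ hε2

end Pool.Agent.W63.TW.G1
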